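import Mathlib

/-!
# A new relation in the Quillen negation monoid of topological spaces

For every class `P` of continuous maps, `P^{llllll} = P^{llllllll}`.
-/

set_option autoImplicit false

universe u

open CategoryTheory

namespace Pool.Agent.Results.MP_364315_al.TopRelation

/-- `P ^ w` for a word `w`: the letter `false` is the left negation `l`, the letter `true` is the
right negation `r`; the first letter of the word is applied first. -/
def neg (P : MorphismProperty TopCat.{u}) : List Bool → MorphismProperty TopCat.{u}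
  | [] => P
  | a :: w => neg (match a with
    | false => P.llp
    | true => P.rlp) w

/-- The two relations `lrl = l` and `rlr = r`. -/
inductive Rel : FreeMonoid Bool → FreeMonoid Bool → Prop
  | lrl : Rel (FreeMonoid.ofList [false, true, false]) (FreeMonoid.ofList [false])
  | rlr : Rel (FreeMonoid.ofList [true, false, true]) (FreeMonoid.ofList [true])

section Core

variable {A B X Y : TopCat.{u}}

theorem hlp_iff (f : A ⟶ B) (g : X ⟶ Y) :
    HasLiftingProperty f g ↔ ∀ (s : C(A, X)) (t : C(B, Y)), (∀ a, g (s a) = t (f a)) →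
      ∃ h : C(B, X), (∀ a, h (f a) = s a) ∧ ∀ b, g (h b) = t b := by
  constructor
  · intro H s t hst
    have sq : CommSq (TopCat.ofHom s) f g (TopCat.ofHom t) := ⟨by
      ext a
      exact hst a⟩
    have hl := H.sq_hasLift sq
    refine ⟨(sq.lift).hom, fun a => ?_, fun b => ?_⟩
    · have := ConcreteCategory.congr_hom sq.fac_left a
      exact this
    · have := ConcreteCategory.congr_hom sq.fac_right b
      exact this
  · intro H
    refine ⟨fun {s t} sq => ?_⟩
    obtain ⟨h, h1, h2⟩ := H s.hom t.hom (fun a => ConcreteCategory.congr_hom sq.w a)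
    refine ⟨⟨⟨TopCat.ofHom h, ?_, ?_⟩⟩⟩
    · ext a
      exact h1 a
    · ext b
      exact h2 b

/-- A two-point set. -/
structure Two : Type u where
  /-- the value -/
  val : Bool

/-- The indiscrete topology. -/
instance : TopologicalSpace Two.{u} := ⊤

/-- The indiscrete two-point space. -/
abbrev I2 : TopCat.{u} := TopCat.of Two.{u}

/-- The point. -/
abbrev Pt : TopCat.{u} := TopCat.of PUnit.{u+1}

/-- The map from the indiscrete two-point space to the point. -/
def i2pt : I2.{u} ⟶ Pt.{u} := TopCat.ofHom (ContinuousMap.const _ PUnit.unit)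

/-- The inclusion of a point into the indiscrete two-point space. -/
def pti2 : Pt.{u} ⟶ I2.{u} :=
  TopCat.ofHom (ContinuousMap.const _ (Two.mk false))

/-- Every function to the indiscrete two-point space is continuous. -/
def toI2 (Z : TopCat.{u}) (χ : Z → Bool) : C(Z, I2.{u}) :=
  ⟨fun z => Two.mk (χ z), continuous_top⟩

theorem toI2_inj {Z : TopCat.{u}} {χ : Z → Bool} {a b : Z} (h : toI2 Z χ a = toI2 Z χ b) :
    χ a = χ b := congrArg Two.val h

theorem injective_of_i2pt (g : A ⟶ B) (h : HasLiftingProperty g i2pt.{u}) :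
    Function.Injective g := by
  classical
  intro a a' haa
  by_contra hne
  rw [hlp_iff] at h
  obtain ⟨k, hk, -⟩ := h (toI2 A (fun z => decide (z = a)))
    (ContinuousMap.const _ PUnit.unit) (fun _ => rfl)
  have h1 : toI2 A (fun z => decide (z = a)) a = toI2 A (fun z => decide (z = a)) a' := by
    rw [← hk, ← hk, haa]
  have h2 := toI2_inj h1
  simp only [decide_true] at h2
  exact hne (of_decide_eq_true h2.symm).symm

theorem surjective_of_pti2 (g : A ⟶ B) (h : HasLiftingProperty g pti2.{u}) :
    Function.Surjective g := by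
  classical
  intro b
  by_contra hne
  rw [hlp_iff] at h
  obtain ⟨k, -, hk⟩ := h (ContinuousMap.const _ PUnit.unit)
    (toI2 B (fun z => decide (¬ ∃ a, g a = z))) (fun a => by
      change Two.mk false = Two.mk (decide (¬ ∃ a', g a' = g a))
      congr 1
      symm
      apply decide_eq_false
      push Not
      exact ⟨a, rfl⟩)
  have h1 := congrArg Two.val (hk b)
  change false = decide (¬ ∃ a, g a = b) at h1
  exact absurd hne (of_decide_eq_false h1.symm)

/-- A map with the left lifting property against itself is an isomorphism. -/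
theorem isIso_of_self (g : A ⟶ B) (h : HasLiftingProperty g g) : IsIso g := by
  have sq : CommSq (𝟙 A) g g (𝟙 B) := ⟨by simp⟩
  have := h.sq_hasLift sq
  exact ⟨sq.lift, sq.fac_left, sq.fac_right⟩

/-- If `P.llp` contains a non-injective map then `i2pt` is in `P.llp`. -/
theorem i2pt_mem (f : A ⟶ B) (p : X ⟶ Y) (h : HasLiftingProperty f p)
    (hf : ¬ Function.Injective f) : HasLiftingProperty i2pt.{u} p := by
  classical
  rw [Function.Injective] at hf
  push Not at hf
  obtain ⟨a, a', haa, hne⟩ := hf
  rw [hlp_iff] at h ⊢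
  intro s t hst
  obtain ⟨k, hk, -⟩ := h (s.comp (toI2 A (fun z => decide (z = a))))
    (ContinuousMap.const _ (t PUnit.unit)) (fun z => hst _)
  have h1 : s (toI2 A (fun z => decide (z = a)) a) = s (toI2 A (fun z => decide (z = a)) a') := by
    have e1 := hk a
    have e2 := hk a'
    rw [haa] at e1
    exact e1.symm.trans e2
  have h2 : s (Two.mk true) = s (Two.mk false) := by
    have e1 : toI2 A (fun z => decide (z = a)) a = Two.mk.{u} true := by
      change Two.mk _ = Two.mk _
      congr 1
      exact decide_eq_true rfl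
    have e2 : toI2 A (fun z => decide (z = a)) a' = Two.mk.{u} false := by
      change Two.mk _ = Two.mk _
      congr 1
      exact decide_eq_false (fun hh => hne hh.symm)
    rw [e1, e2] at h1
    exact h1
  refine ⟨ContinuousMap.const _ (s (Two.mk true)), fun z => ?_, fun b => ?_⟩
  · change s _ = s z
    obtain ⟨z⟩ := z
    cases z
    · exact h2
    · rfl
  · exact hst _

/-- Clopen embeddings. -/
def IsCE (g : A ⟶ B) : Prop := Topology.IsEmbedding g ∧ IsClopen (Set.range g)

/-- Maps whose image meets every nonempty clopen set. -/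
def IsCD (g : A ⟶ B) : Prop := ∀ W : Set B, IsClopen W → W.Nonempty → ∃ a, g a ∈ W

theorem quot_lift (q : A ⟶ B) (hq : Topology.IsQuotientMap q) (m : X ⟶ Y)
    (hm : Function.Injective m) : HasLiftingProperty q m := by
  rw [hlp_iff]
  intro s t hst
  have hs : ∀ a a', q a = q a' → s a = s a' := fun a a' h => hm (by rw [hst, hst, h])
  refine ⟨⟨fun b => s (Function.surjInv hq.surjective b), ?_⟩, fun a => ?_, fun b => ?_⟩
  · rw [hq.continuous_iff]
    have : (fun b => s (Function.surjInv hq.surjective b)) ∘ q = s := by
      funext a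
      exact hs _ _ (Function.surjInv_eq hq.surjective _)
    rw [this]
    exact s.continuous
  · exact hs _ _ (Function.surjInv_eq hq.surjective _)
  · change m (s _) = t b
    rw [hst, Function.surjInv_eq hq.surjective]

theorem ce_of_quot (g : X ⟶ Y)
    (h : ∀ {A B : TopCat.{u}} (q : A ⟶ B), Topology.IsQuotientMap q → HasLiftingProperty g q) :
    IsCE g := by
  let F : TopCat.of (X ⊕ Y) ⟶ Y :=
    TopCat.ofHom ⟨Sum.elim g id, g.hom.continuous.sumElim continuous_id⟩
  have hF : Topology.IsQuotientMap F := by
    have hc : Continuous F := F.hom.continuous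
    have hi : Continuous (Sum.inr : Y → X ⊕ Y) := continuous_inr
    refine Topology.IsQuotientMap.of_comp hi hc ?_
    exact Topology.IsQuotientMap.id
  have hl := h F hF
  rw [hlp_iff] at hl
  obtain ⟨σ, h1, h2⟩ := hl ⟨Sum.inl, continuous_inl⟩ (ContinuousMap.id _) (fun _ => rfl)
  have h1' : ∀ x : X, σ (g x) = (Sum.inl x : X ⊕ Y) := h1
  constructor
  · refine Topology.IsEmbedding.of_comp g.hom.continuous σ.continuous ?_
    have : (σ ∘ g : X → X ⊕ Y) = Sum.inl := by
      funext x
      exact h1' x
    change Topology.IsEmbedding (σ ∘ g : X → X ⊕ Y)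
    rw [this]
    exact Topology.IsEmbedding.inl
  · have : Set.range g = σ ⁻¹' (Set.range (Sum.inl : X → X ⊕ Y)) := by
      ext y
      constructor
      · rintro ⟨x, rfl⟩
        exact ⟨x, (h1' x).symm⟩
      · rintro ⟨x, hx⟩
        have e := h2 y
        rw [← hx] at e
        exact ⟨x, e⟩
    rw [this]
    exact (isClopen_range_inl).preimage σ.continuous

theorem cd_lift (f : A ⟶ B) (hf : IsCD f) (m : X ⟶ Y) (hm : IsCE m) :
    HasLiftingProperty f m := by
  rw [hlp_iff]
  intro s t hst
  have hr : ∀ b, t b ∈ Set.range m := by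
    by_contra hne
    push Not at hne
    obtain ⟨b, hb⟩ := hne
    obtain ⟨a, ha⟩ := hf (t ⁻¹' (Set.range m)ᶜ) (hm.2.compl.preimage t.continuous) ⟨b, hb⟩
    exact ha ⟨s a, hst a⟩
  choose h hh using hr
  refine ⟨⟨h, ?_⟩, fun a => ?_, hh⟩
  · rw [hm.1.continuous_iff]
    have : (m ∘ h : B → Y) = t := funext hh
    rw [this]
    exact t.continuous
  · apply hm.1.injective
    change m (h (f a)) = _
    rw [hh, hst]

theorem iso_of_cd (g : X ⟶ Y)
    (h : ∀ {A B : TopCat.{u}} (q : A ⟶ B), IsCD q → HasLiftingProperty g q) : IsIso g := by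
  have hinj : Function.Injective g := injective_of_i2pt g (h _ (by
    intro W _ hW
    obtain ⟨w, hw⟩ := hW
    exact ⟨Two.mk true, hw⟩))
  have hsurj : Function.Surjective g := surjective_of_pti2 g (h _ (by
    intro W hW hne
    have ho : @IsOpen Two.{u} ⊤ W := hW.isOpen
    rw [TopologicalSpace.isOpen_top_iff] at ho
    rcases ho with ho | ho
    · rw [ho] at hne
      exact absurd hne Set.not_nonempty_empty
    · exact ⟨PUnit.unit, by rw [ho]; exact Set.mem_univ _⟩))
  exact isIso_of_self g (h g (by
    intro W _ hW
    obtain ⟨w, hw⟩ := hW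
    obtain ⟨a, rfl⟩ := hsurj w
    exact ⟨a, hw⟩))

end Core

theorem llp_top : (⊤ : MorphismProperty TopCat.{u}).llp = MorphismProperty.isomorphisms _ := by
  ext X Y g
  rw [MorphismProperty.isomorphisms.iff]
  constructor
  · intro h
    exact isIso_of_self g (h g trivial)
  · intro h
    exact MorphismProperty.llp_of_isIso _ g

theorem llp_iso : (MorphismProperty.isomorphisms TopCat.{u}).llp = ⊤ := by
  ext X Y g
  constructor
  · intro _
    trivial
  · intro _ A B q hq
    rw [MorphismProperty.isomorphisms.iff] at hq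
    infer_instance

theorem four_steps (L : MorphismProperty TopCat.{u})
    (hL : ∀ {X Y : TopCat.{u}} (g : X ⟶ Y), L g → Function.Injective g) :
    L.llp.llp.llp.llp = MorphismProperty.isomorphisms _ := by
  have h1 : ∀ {A B : TopCat.{u}} (q : A ⟶ B), Topology.IsQuotientMap q → L.llp q :=
    fun q hq _ _ m hm => quot_lift q hq m (hL m hm)
  have h2 : ∀ {A B : TopCat.{u}} (q : A ⟶ B), L.llp.llp q → IsCE q :=
    fun q hq => ce_of_quot q (fun r hr => hq r (h1 r hr))
  have h3 : ∀ {A B : TopCat.{u}} (q : A ⟶ B), IsCD q → L.llp.llp.llp q :=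
    fun q hq _ _ m hm => cd_lift q hq m (h2 m hm)
  ext X Y g
  rw [MorphismProperty.isomorphisms.iff]
  constructor
  · intro h
    exact iso_of_cd g (fun r hr => h r (h3 r hr))
  · intro h
    exact MorphismProperty.llp_of_isIso _ g

theorem main (P : MorphismProperty TopCat.{u}) :
    P.llp.llp.llp.llp.llp.llp = P.llp.llp.llp.llp.llp.llp.llp.llp := by
  by_cases h : ∀ {X Y : TopCat.{u}} (g : X ⟶ Y), P.llp g → Function.Injective g
  · have e := four_steps P.llp h
    rw [e, llp_iso, llp_top, llp_iso]
  · push Not at h
    obtain ⟨A, B, f, hf, hinj⟩ := h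
    have h1 : P.llp i2pt.{u} := fun _ _ p hp => i2pt_mem f p (hf p hp) hinj
    have e := four_steps P.llp.llp (fun g hg => injective_of_i2pt g (hg _ h1))
    rw [e, llp_iso, llp_top]

/-- The homomorphism to the integers that sends `l` to `1` and `r` to `-1`. -/
def wt (b : Bool) : Multiplicative ℤ := Multiplicative.ofAdd (if b then -1 else 1)

theorem wt_rel (a b : FreeMonoid Bool) (h : Rel a b) :
    FreeMonoid.lift wt a = FreeMonoid.lift wt b := by
  cases h <;> rfl

theorem words_ne :
    PresentedMonoid.mk Rel (FreeMonoid.ofList (List.replicate 6 false)) ≠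
      PresentedMonoid.mk Rel (FreeMonoid.ofList (List.replicate 8 false)) := by
  intro h
  have h2 := congrArg (PresentedMonoid.lift wt wt_rel) h
  have h3 : FreeMonoid.lift wt (FreeMonoid.ofList (List.replicate 6 false)) =
    FreeMonoid.lift wt (FreeMonoid.ofList (List.replicate 8 false)) := h2
  have h4 : (6 : ℤ) = 8 := congrArg Multiplicative.toAdd h3
  norm_num at h4

/-- The answer to the question, together with the explicit relation `llllll = llllllll`. -/
theorem result :
    (∀ P : MorphismProperty TopCat.{u},
      P.llp.llp.llp.llp.llp.llp = P.llp.llp.llp.llp.llp.llp.llp.llp) ∧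
    ∃ w w' : FreeMonoid Bool, PresentedMonoid.mk Rel w ≠ PresentedMonoid.mk Rel w' ∧
      ∀ P : MorphismProperty TopCat.{u}, neg P w.toList = neg P w'.toList :=
  ⟨main, FreeMonoid.ofList (List.replicate 6 false), FreeMonoid.ofList (List.replicate 8 false),
    words_ne, fun P => main P⟩

end Pool.Agent.Results.MP_364315_al.TopRelation
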